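import Mathlib
import Pool.Agent.H931R3.Bal10

/-!
# Posets of bounded thinness on an interval of the natural numbers: counting linear extensions
-/

set_option autoImplicit false

open Finset

namespace Pool.Agent.Q236.TP

open Pool.Agent.H13R3.WB Pool.Agent.H931R3.Bal

/-- a strict partial order on `ℕ` for which the usual order is a linear extension and in which
`i < j` whenever `i + K ≤ j` -/
structure NP (K : ℕ) where
  r : ℕ → ℕ → Prop
  lt : ∀ {i j : ℕ}, r i j → i < j
  tr : ∀ {i j k : ℕ}, r i j → r j k → r i k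
  loc : ∀ {i j : ℕ}, i + K ≤ j → r i j

variable {K : ℕ}

lemma NP.pos (R : NP K) : 1 ≤ K := by
  by_contra h
  have h0 : K = 0 := by omega
  have h1 : R.r 0 0 := R.loc (by omega)
  exact absurd (R.lt h1) (lt_irrefl _)

/-- the poset on the interval `[a, b)` -/
structure Win (R : NP K) (a b : ℕ) where
  val : ℕ
  mem : val ∈ Finset.Ico a b

lemma Win.eq {R : NP K} {a b : ℕ} {x y : Win R a b} (h : x.val = y.val) : x = y := by
  cases x; cases y; congr

lemma Win.eq_iff {R : NP K} {a b : ℕ} {x y : Win R a b} : x = y ↔ x.val = y.val :=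
  ⟨fun h => by rw [h], Win.eq⟩

def winEquiv (R : NP K) (a b : ℕ) : Win R a b ≃ {i : ℕ // i ∈ Finset.Ico a b} where
  toFun x := ⟨x.val, x.mem⟩
  invFun x := ⟨x.val, x.2⟩
  left_inv _ := rfl
  right_inv _ := rfl

instance (R : NP K) (a b : ℕ) : Fintype (Win R a b) := Fintype.ofEquiv _ (winEquiv R a b).symm

instance (R : NP K) (a b : ℕ) : DecidableEq (Win R a b) := (winEquiv R a b).decidableEq

instance (R : NP K) (a b : ℕ) : PartialOrder (Win R a b) where
  le x y := x.val = y.val ∨ R.r x.val y.val
  le_refl x := Or.inl rfl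
  le_trans x y z h1 h2 := by
    rcases h1 with h1 | h1
    · rcases h2 with h2 | h2
      · exact Or.inl (h1.trans h2)
      · exact Or.inr (by rw [h1]; exact h2)
    · rcases h2 with h2 | h2
      · exact Or.inr (by rw [← h2]; exact h1)
      · exact Or.inr (R.tr h1 h2)
  le_antisymm x y h1 h2 := by
    rcases h1 with h1 | h1
    · exact Win.eq h1
    · rcases h2 with h2 | h2
      · exact Win.eq h2.symm
      · have := R.lt h1
        have := R.lt h2
        omega

lemma win_le {R : NP K} {a b : ℕ} {x y : Win R a b} : x ≤ y ↔ x.val = y.val ∨ R.r x.val y.val := Iff.rfl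

lemma win_lo {R : NP K} {a b : ℕ} (x : Win R a b) : a ≤ x.val := (Finset.mem_Ico.1 x.mem).1

lemma win_hi {R : NP K} {a b : ℕ} (x : Win R a b) : x.val < b := (Finset.mem_Ico.1 x.mem).2

lemma card_win (R : NP K) (a b : ℕ) : Fintype.card (Win R a b) = b - a := by
  rw [Fintype.card_congr (winEquiv R a b), Fintype.card_coe, Nat.card_Ico]

open Classical in
/-- minimal elements of a set -/
noncomputable def mins (R : NP K) (S : Finset ℕ) : Finset ℕ := S.filter (fun z => ∀ t ∈ S, ¬ R.r t z)

open Classical in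
/-- number of ways to remove `m` elements of `S` one by one, each time a minimal element, allowed by
`A` -/
noncomputable def G (R : NP K) (A : ℕ → Finset ℕ → Prop) : ℕ → Finset ℕ → ℕ
  | 0, _ => 1
  | m + 1, S => ∑ z ∈ (mins R S).filter (fun z => A z S), G R A m (S.erase z)

/-- the elements outside `J` -/
def rem {R : NP K} {a b : ℕ} (J : Finset (Win R a b)) : Finset ℕ :=
  (univ \ J).image Win.val

lemma mem_rem {R : NP K} {a b : ℕ} {J : Finset (Win R a b)} {i : ℕ} :
    i ∈ rem J ↔ ∃ h : i ∈ Finset.Ico a b, (⟨i, h⟩ : Win R a b) ∉ J := by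
  unfold rem
  rw [mem_image]
  constructor
  · rintro ⟨x, hx, rfl⟩
    rw [mem_sdiff] at hx
    exact ⟨x.mem, hx.2⟩
  · rintro ⟨h, hJ⟩
    exact ⟨⟨i, h⟩, by rw [mem_sdiff]; exact ⟨mem_univ _, hJ⟩, rfl⟩

lemma mem_rem' {R : NP K} {a b : ℕ} {J : Finset (Win R a b)} {x : Win R a b} :
    x.val ∈ rem J ↔ x ∉ J := by
  rw [mem_rem]
  exact ⟨fun ⟨_, h⟩ => h, fun h => ⟨x.mem, h⟩⟩

lemma rem_insert {R : NP K} {a b : ℕ} (J : Finset (Win R a b)) (p : Win R a b) :
    rem (insert p J) = (rem J).erase p.val := by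
  ext i
  rw [mem_rem, mem_erase, mem_rem]
  constructor
  · rintro ⟨h, h1⟩
    rw [mem_insert, not_or] at h1
    refine ⟨?_, h, h1.2⟩
    intro h2
    exact h1.1 (Win.eq h2)
  · rintro ⟨h1, h, h2⟩
    refine ⟨h, ?_⟩
    rw [mem_insert, not_or]
    exact ⟨fun h3 => h1 (congrArg Win.val h3), h2⟩

open Classical in
lemma isLow_insert {R : NP K} {a b : ℕ} {J : Finset (Win R a b)} (hJ : IsLow J) {p : Win R a b}
    (hp : p ∉ J) : IsLow (insert p J) ↔ p.val ∈ mins R (rem J) := by
  unfold mins
  rw [mem_filter]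
  constructor
  · intro h
    refine ⟨mem_rem'.2 hp, fun t ht hr => ?_⟩
    obtain ⟨h1, h2⟩ := mem_rem.1 ht
    have h3 : (⟨t, h1⟩ : Win R a b) ∈ insert p J :=
      h p (mem_insert_self _ _) _ (Or.inr hr)
    rcases mem_insert.1 h3 with h4 | h4
    · have := congrArg Win.val h4
      simp only at this
      have := R.lt hr
      omega
    · exact h2 h4
  · rintro ⟨_, h⟩ q hq t ht
    rcases mem_insert.1 hq with h1 | h1
    · subst h1
      by_cases hJt : t ∈ J
      · exact mem_insert_of_mem hJt
      · rcases ht with h2 | h2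
        · rw [show t = q from Win.eq h2]
          exact mem_insert_self _ _
        · exact absurd h2 (h t.val (mem_rem'.2 hJt))
    · exact mem_insert_of_mem (hJ q h1 t ht)

/-- the count of `H13R3.WB.Count` in terms of the remaining set -/
lemma D_eq_G {R : NP K} {a b : ℕ} (B : Finset (Win R a b) → Prop) (A : ℕ → Finset ℕ → Prop)
    [DecidablePred (fun J : Finset (Win R a b) => IsLow J ∧ B J)]
    (hB : ∀ J, B J → ∀ p, p ∉ J → (B (insert p J) ↔ A p.val (rem J))) (m : ℕ) :
    ∀ J : Finset (Win R a b), IsLow J → B J →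
      Pool.Agent.H13R3.WB.D (fun J => IsLow J ∧ B J) m J = G R A m (rem J) := by
  classical
  induction m with
  | zero => intro J _ _; rfl
  | succ m ih =>
    intro J hJ hBJ
    rw [Pool.Agent.H13R3.WB.D, G]
    apply Finset.sum_bij (fun (p : Win R a b) _ => p.val)
    · intro p hp
      obtain ⟨_, h1, h2, h3⟩ := mem_filter.1 hp
      rw [mem_filter]
      exact ⟨(isLow_insert hJ h1).1 h2, (hB J hBJ p h1).1 h3⟩
    · intro p _ q _ h
      exact Win.eq h
    · intro z hz
      obtain ⟨h1, h2⟩ := mem_filter.1 hz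
      have h3 : z ∈ rem J := (mem_filter.1 h1).1
      obtain ⟨h4, h5⟩ := mem_rem.1 h3
      refine ⟨⟨z, h4⟩, ?_, rfl⟩
      rw [mem_filter]
      exact ⟨mem_univ _, h5, (isLow_insert hJ h5).2 h1, (hB J hBJ _ h5).2 h2⟩
    · intro p hp
      obtain ⟨_, h1, h2, h3⟩ := mem_filter.1 hp
      rw [← rem_insert]
      exact ih _ h2 h3

lemma rem_empty {R : NP K} {a b : ℕ} : rem (∅ : Finset (Win R a b)) = Finset.Ico a b := by
  ext i
  rw [mem_rem]
  simp

/-- the condition that `y` does not come before `x` -/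
def Axy (x y : ℕ) (z : ℕ) (S : Finset ℕ) : Prop := z = y → x ∉ S

open Classical in
/-- probabilities as quotients of counts -/
theorem prob_win (R : NP K) {a b : ℕ} (x y : Win R a b) (hxy : x ≠ y) :
    prob (Win R a b) x y = (G R (Axy x.val y.val) (b - a) (Finset.Ico a b) : ℝ) /
      G R (fun _ _ => True) (b - a) (Finset.Ico a b) := by
  unfold prob
  have hn := card_win R a b
  have h1 : Nat.card {f : Win R a b ≃ Fin (Fintype.card (Win R a b)) // Monotone f ∧ f x < f y} =
      G R (Axy x.val y.val) (b - a) (Finset.Ico a b) := by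
    rw [Nat.card_eq_fintype_card, Fintype.card_subtype]
    have e1 : (univ.filter fun f : Win R a b ≃ Fin (Fintype.card (Win R a b)) =>
        Monotone f ∧ f x < f y) = univ.filter (fun f => ∀ k ≤ Fintype.card (Win R a b),
          (fun J => IsLow J ∧ (y ∈ J → x ∈ J)) (Hs f k)) := by
      ext f
      rw [mem_filter, mem_filter, mono_lt_iff f hxy]
    rw [e1, card_count (fun J => IsLow J ∧ (y ∈ J → x ∈ J)) rfl
      ⟨fun p hp => absurd hp (notMem_empty _), fun h => absurd h (notMem_empty _)⟩, D_eq_G (fun J => y ∈ J → x ∈ J) (Axy x.val y.val) ?_ _ ∅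
      (fun p hp => absurd hp (notMem_empty _)) (fun h => absurd h (notMem_empty _)), rem_empty, hn]
    intro J hJ p hp
    unfold Axy
    constructor
    · intro h h1 h2
      have h3 : p = y := Win.eq h1
      have h4 := h (by rw [h3]; exact mem_insert_self _ _)
      rcases mem_insert.1 h4 with h5 | h5
      · exact hxy (h5.trans h3)
      · exact mem_rem'.1 h2 h5
    · intro h h1
      rcases mem_insert.1 h1 with h2 | h2
      · have h3 := h (congrArg Win.val h2.symm)
        rw [mem_rem', not_not] at h3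
        exact mem_insert_of_mem h3
      · exact mem_insert_of_mem (hJ h2)
  have h2 : Nat.card {f : Win R a b ≃ Fin (Fintype.card (Win R a b)) // Monotone f} =
      G R (fun _ _ => True) (b - a) (Finset.Ico a b) := by
    rw [Nat.card_eq_fintype_card, Fintype.card_subtype]
    have e1 : (univ.filter fun f : Win R a b ≃ Fin (Fintype.card (Win R a b)) =>
        Monotone f) = univ.filter (fun f => ∀ k ≤ Fintype.card (Win R a b),
          (fun J => IsLow J ∧ True) (Hs f k)) := by
      ext f
      rw [mem_filter, mem_filter, mono_iff f]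
      simp
    rw [e1, card_count (fun J => IsLow J ∧ True) rfl
      ⟨fun p hp => absurd hp (notMem_empty _), trivial⟩,
      D_eq_G (fun _ => True) (fun _ _ => True) (fun _ _ _ _ => by simp) _ ∅
      (fun p hp => absurd hp (notMem_empty _)) trivial, rem_empty, hn]
  rw [h1, h2]

end Pool.Agent.Q236.TP
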