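import Mathlib
import Pool.Agent.Q236.TP.Dob

/-!
# Truncation of a thin poset changes the probabilities far away only a little
-/

set_option autoImplicit false

open Finset

namespace Pool.Agent.Q236.TP

open Pool.Agent.H13R3.WB Pool.Agent.H931R3.Bal

variable {K : ℕ}

/-- number of linear extensions -/
noncomputable def Nc (R : NP K) (S : Finset ℕ) : ℝ := G R (fun _ _ => True) S.card S

/-- number of linear extensions with `x` before `y` -/
noncomputable def Qc (R : NP K) (x y : ℕ) (S : Finset ℕ) : ℝ := G R (Axy x y) S.card S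

open Classical in
lemma G_true (R : NP K) (m : ℕ) (S : Finset ℕ) : G R (fun _ _ => True) (m + 1) S =
    ∑ z ∈ mins R S, G R (fun _ _ => True) m (S.erase z) := by
  rw [G]
  exact sum_congr (by ext z; simp) (fun _ _ => rfl)

lemma Nc_addi (R : NP K) {n l : ℕ} (hl : l ≤ n) : Addi R n l (Nc R) := by
  classical
  intro i S hS hi
  unfold Nc
  have hc := hS.card
  obtain ⟨m, hm⟩ : ∃ m, S.card = m + 1 := ⟨S.card - 1, by omega⟩
  rw [hm, G_true]
  push_cast
  apply sum_congr rfl
  intro z hz
  rw [card_erase_of_mem (mem_mins.1 hz).1, hm, Nat.add_sub_cancel]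

lemma Qc_addi (R : NP K) {n l : ℕ} (hl : l ≤ n) {x y : ℕ} (hy : l + K ≤ y) (hyn : y < n) :
    Addi R n l (Qc R x y) := by
  classical
  intro i S hS hi
  unfold Qc
  have hc := hS.card
  obtain ⟨m, hm⟩ : ∃ m, S.card = m + 1 := ⟨S.card - 1, by omega⟩
  rw [hm, G, filter_true_of_mem]
  · push_cast
    apply sum_congr rfl
    intro z hz
    rw [card_erase_of_mem (mem_mins.1 hz).1, hm, Nat.add_sub_cancel]
  · intro z hz hzy
    exfalso
    have h1 := hS.erase hz
    have h2 : y ∉ S.erase z := by rw [hzy]; exact notMem_erase _ _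
    have := h1.lt_of_notMem hyn h2
    omega

lemma G_pos (R : NP K) : ∀ (m : ℕ) (S : Finset ℕ), S.card = m → 0 < G R (fun _ _ => True) m S := by
  classical
  intro m
  induction m with
  | zero => intro S _; exact one_pos
  | succ m ih =>
    intro S hS
    rw [G_true]
    obtain ⟨z, hz⟩ := mins_nonempty R (S := S) (card_pos.1 (by omega))
    refine lt_of_lt_of_le (ih (S.erase z) (by rw [card_erase_of_mem (mem_mins.1 hz).1]; omega)) ?_
    exact single_le_sum (f := fun z => G R (fun _ _ => True) m (S.erase z))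
      (fun z _ => Nat.zero_le _) hz

lemma G_le (R : NP K) (A : ℕ → Finset ℕ → Prop) : ∀ (m : ℕ) (S : Finset ℕ),
    G R A m S ≤ G R (fun _ _ => True) m S := by
  classical
  intro m
  induction m with
  | zero => intro S; exact le_rfl
  | succ m ih =>
    intro S
    rw [G, G_true]
    exact (sum_le_sum_of_subset (filter_subset _ _)).trans (sum_le_sum fun z _ => ih _)

lemma Fil_Ico (R : NP K) {a n : ℕ} (h : a ≤ n) : Fil R n a (Finset.Ico a n) := by
  refine ⟨fun t ht => ?_, fun t ht u hu hr => ?_, ?_⟩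
  · rw [mem_Ico] at ht; rw [mem_range]; exact ht.2
  · rw [mem_Ico] at ht ⊢
    have := R.lt hr
    omega
  · rw [Nat.card_Ico]; omega

/-- the probability as a quotient -/
lemma prob_Nc (R : NP K) {a n : ℕ} (x y : Win R a n) (hxy : x ≠ y) :
    prob (Win R a n) x y = Qc R x.val y.val (Finset.Ico a n) / Nc R (Finset.Ico a n) := by
  rw [prob_win R x y hxy]
  unfold Qc Nc
  rw [Nat.card_Ico]

/-- left truncation -/
theorem left_trunc (R : NP K) {a s n j : ℕ} (has : a ≤ s) (x y : Win R a n) (x' y' : Win R s n)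
    (hx : x.val = x'.val) (hy : y.val = y'.val) (h1 : s + 2 * K * j + K ≤ x.val)
    (h2 : s + 2 * K * j + K ≤ y.val) :
    |prob (Win R a n) x y - prob (Win R s n) x' y'| ≤ (1 - th K) ^ j := by
  have hθ : 0 ≤ 1 - th K := by have := th_le R; linarith
  by_cases hxy : x = y
  · have hxy' : x' = y' := Win.eq (by rw [← hx, ← hy, hxy])
    rw [hxy, hxy', prob_self, prob_self, sub_zero, abs_zero]
    positivity
  have hxy' : x' ≠ y' := fun h => hxy (Win.eq (by rw [hx, hy, h]))
  rw [prob_Nc R x y hxy, prob_Nc R x' y' hxy', ← hx, ← hy]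
  have hxn := win_hi x
  have hyn := win_hi y
  have hpos : ∀ i S, Fil R n i S → 0 < Nc R S := fun i S _ => by
    unfold Nc
    exact_mod_cast G_pos R _ S rfl
  obtain ⟨r, t, h3, h4⟩ := contract_iter (R := R) (n := n) (N := Nc R) (Q := Qc R x.val y.val) hpos
    0 1 zero_le_one j (s + 2 * K * j) (Nc_addi R (by omega)) (Qc_addi R (by omega) h2 hyn)
    (fun i hi => ⟨_, Fil_Ico R (by omega)⟩) (fun T _ => by
      rw [zero_mul, one_mul]
      unfold Qc Nc
      exact ⟨by positivity, by exact_mod_cast G_le R _ _ T⟩)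
  have g1 := h4 a (by omega) _ (Fil_Ico R (a := a) (n := n) (by omega))
  have g2 := h4 s (by omega) _ (Fil_Ico R (a := s) (n := n) (by omega))
  have p1 := hpos a _ (Fil_Ico R (a := a) (n := n) (by omega))
  have p2 := hpos s _ (Fil_Ico R (a := s) (n := n) (by omega))
  have k1 : r ≤ Qc R x.val y.val (Finset.Ico a n) / Nc R (Finset.Ico a n) := by
    rw [le_div_iff₀ p1]; exact g1.1
  have k2 : Qc R x.val y.val (Finset.Ico a n) / Nc R (Finset.Ico a n) ≤ t := by
    rw [div_le_iff₀ p1]; exact g1.2
  have k3 : r ≤ Qc R x.val y.val (Finset.Ico s n) / Nc R (Finset.Ico s n) := by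
    rw [le_div_iff₀ p2]; exact g2.1
  have k4 : Qc R x.val y.val (Finset.Ico s n) / Nc R (Finset.Ico s n) ≤ t := by
    rw [div_le_iff₀ p2]; exact g2.2
  rw [sub_zero, mul_one] at h3
  rw [abs_le]
  constructor <;> linarith

/-! ### reversal -/

/-- the reversed order on `[0, n)` -/
def NP.rev (R : NP K) (n : ℕ) : NP K where
  r i j := i < j ∧ (j < n → R.r (n - 1 - j) (n - 1 - i))
  lt h := h.1
  tr := by
    rintro i j k ⟨h1, h2⟩ ⟨h3, h4⟩
    exact ⟨h1.trans h3, fun hk => R.tr (h4 hk) (h2 (by omega))⟩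
  loc := by
    intro i j h
    have hK := R.pos
    exact ⟨by omega, fun hj => R.loc (by omega)⟩

lemma rev_r {R : NP K} {n i j : ℕ} (hi : i < n) (hj : j < n) :
    (R.rev n).r i j ↔ R.r (n - 1 - j) (n - 1 - i) := by
  constructor
  · intro h; exact h.2 hj
  · intro h
    refine ⟨?_, fun _ => h⟩
    have := R.lt h
    omega

/-- a window of the reversed order -/
def revIso (R : NP K) {a b n : ℕ} (hb : b ≤ n) :
    Win (R.rev n) (n - b) (n - a) ≃o (Win R a b)ᵒᵈ where
  toFun x := OrderDual.toDual ⟨n - 1 - x.val, by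
    have := win_lo x; have := win_hi x
    rw [mem_Ico]; omega⟩
  invFun x := ⟨n - 1 - (OrderDual.ofDual x).val, by
    have := win_lo (OrderDual.ofDual x); have := win_hi (OrderDual.ofDual x)
    rw [mem_Ico]; omega⟩
  left_inv x := by
    apply Win.eq
    have := win_lo x; have := win_hi x
    simp only [OrderDual.ofDual_toDual]
    omega
  right_inv x := by
    have h1 := win_lo (OrderDual.ofDual x); have h2 := win_hi (OrderDual.ofDual x)
    apply OrderDual.ofDual.injective
    apply Win.eq
    simp only [OrderDual.ofDual_toDual]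
    omega
  map_rel_iff' := by
    intro x y
    have h1 := win_lo x; have h2 := win_hi x
    have h3 := win_lo y; have h4 := win_hi y
    show (n - 1 - y.val = n - 1 - x.val ∨ R.r (n - 1 - y.val) (n - 1 - x.val)) ↔
      (x.val = y.val ∨ (R.rev n).r x.val y.val)
    rw [rev_r (by omega) (by omega)]
    constructor
    · rintro (h | h)
      · exact Or.inl (by omega)
      · exact Or.inr h
    · rintro (h | h)
      · exact Or.inl (by omega)
      · exact Or.inr h

/-- the dual poset -/
def dualE (P : Type) [PartialOrder P] (n : ℕ) : LEn Pᵒᵈ n ≃ LEn P n where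
  toFun f := ⟨(OrderDual.toDual.trans f.1).trans Fin.revPerm, fun a b hab => by
    have h : f.1 (OrderDual.toDual b) ≤ f.1 (OrderDual.toDual a) := f.2 hab
    exact Fin.rev_le_rev.2 h⟩
  invFun f := ⟨(OrderDual.ofDual.trans f.1).trans Fin.revPerm, fun a b hab => by
    have h : f.1 (OrderDual.ofDual b) ≤ f.1 (OrderDual.ofDual a) := f.2 hab
    exact Fin.rev_le_rev.2 h⟩
  left_inv f := by
    apply Subtype.ext
    apply Equiv.ext
    intro z
    exact Fin.rev_rev _
  right_inv f := by
    apply Subtype.ext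
    apply Equiv.ext
    intro z
    exact Fin.rev_rev _

lemma pr_dual {P : Type} [PartialOrder P] [Finite P] (n : ℕ) (x y : P) :
    pr Pᵒᵈ n (OrderDual.toDual x) (OrderDual.toDual y) = pr P n y x := by
  unfold pr
  rw [Fintype.card_congr (dualE P n)]
  congr 1
  rw [← Equiv.sum_comp (dualE P n)]
  apply sum_congr rfl
  intro f _
  have h : (f.1 (OrderDual.toDual x) < f.1 (OrderDual.toDual y)) ↔
      (((dualE P n) f).1 y < ((dualE P n) f).1 x) := Fin.rev_lt_rev.symm
  by_cases h1 : f.1 (OrderDual.toDual x) < f.1 (OrderDual.toDual y)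
  · rw [if_pos h1, if_pos (h.1 h1)]
  · rw [if_neg h1, if_neg (fun h2 => h1 (h.2 h2))]

lemma prob_dual {P : Type} [Fintype P] [PartialOrder P] (x y : P) :
    prob Pᵒᵈ (OrderDual.toDual x) (OrderDual.toDual y) = prob P y x := by
  rw [prob_eq (n := Fintype.card P) (Fintype.card_congr OrderDual.ofDual), prob_eq rfl, pr_dual]

lemma prob_rev (R : NP K) {a b n : ℕ} (hb : b ≤ n) (x y : Win R a b) :
    prob (Win R a b) x y = prob (Win (R.rev n) (n - b) (n - a))
      ((revIso R hb).symm (OrderDual.toDual y)) ((revIso R hb).symm (OrderDual.toDual x)) := by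
  rw [prob_iso (revIso R hb), OrderIso.apply_symm_apply, OrderIso.apply_symm_apply, prob_dual]

/-- right truncation -/
theorem right_trunc (R : NP K) {a b c j : ℕ} (hbc : b ≤ c) (x y : Win R a c) (x' y' : Win R a b)
    (hx : x.val = x'.val) (hy : y.val = y'.val) (h1 : x.val + 1 + 2 * K * j + K ≤ b)
    (h2 : y.val + 1 + 2 * K * j + K ≤ b) :
    |prob (Win R a c) x y - prob (Win R a b) x' y'| ≤ (1 - th K) ^ j := by
  rw [prob_rev R (le_refl c) x y, prob_rev R hbc x' y']
  have e1 : ∀ z : Win R a c, ((revIso R (le_refl c)).symm (OrderDual.toDual z)).val =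
    c - 1 - z.val := fun z => rfl
  have e2 : ∀ z : Win R a b, ((revIso R hbc).symm (OrderDual.toDual z)).val =
    c - 1 - z.val := fun z => rfl
  apply left_trunc (R.rev c) (s := c - b) (by omega)
  · rw [e1, e2, hy]
  · rw [e1, e2, hx]
  · rw [e1]; omega
  · rw [e1]; omega

end Pool.Agent.Q236.TP
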