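import Mathlib
import Pool.Agent.Q236.TP.LT
import Pool.Agent.H931R3.Bal14

/-!
# Probabilities in a thin poset depend only on a neighbourhood; locally embedded posets
-/

set_option autoImplicit false

open Finset

namespace Pool.Agent.Q236.TP

open Pool.Agent.H13R3.WB Pool.Agent.H931R3.Bal

variable {K : ℕ}

/-- truncation on both sides -/
theorem two_trunc (R : NP K) {n lo hi j : ℕ} (x y : Win R 0 n) (x' y' : Win R lo hi)
    (hx : x.val = x'.val) (hy : y.val = y'.val)
    (hlo : lo = 0 ∨ (lo + 2 * K * j + K ≤ x.val ∧ lo + 2 * K * j + K ≤ y.val))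
    (hhi : hi = n ∨ (hi ≤ n ∧ x.val + 1 + 2 * K * j + K ≤ hi ∧ y.val + 1 + 2 * K * j + K ≤ hi)) :
    |prob (Win R 0 n) x y - prob (Win R lo hi) x' y'| ≤ 2 * (1 - th K) ^ j := by
  have hθ : 0 ≤ 1 - th K := by have := th_le R; linarith
  have hp : 0 ≤ (1 - th K) ^ j := by positivity
  have hx1 := win_hi x'
  have hy1 := win_hi y'
  let x1 : Win R 0 hi := ⟨x.val, by rw [mem_Ico]; omega⟩
  let y1 : Win R 0 hi := ⟨y.val, by rw [mem_Ico]; omega⟩
  have h1 : |prob (Win R 0 n) x y - prob (Win R 0 hi) x1 y1| ≤ (1 - th K) ^ j := by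
    rcases hhi with h | ⟨h, h2, h3⟩
    · subst h
      have e1 : x1 = x := Win.eq rfl
      have e2 : y1 = y := Win.eq rfl
      rw [e1, e2, sub_self, abs_zero]
      exact hp
    · exact right_trunc R h x y x1 y1 rfl rfl h2 h3
  have h2 : |prob (Win R 0 hi) x1 y1 - prob (Win R lo hi) x' y'| ≤ (1 - th K) ^ j := by
    rcases hlo with h | ⟨h, h3⟩
    · subst h
      have e1 : x1 = x' := Win.eq hx
      have e2 : y1 = y' := Win.eq hy
      rw [e1, e2, sub_self, abs_zero]
      exact hp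
    · exact left_trunc R (Nat.zero_le _) x1 y1 x' y' hx hy h h3
  rw [abs_le] at h1 h2 ⊢
  constructor <;> linarith [h1.1, h1.2, h2.1, h2.2]

/-- a shift of windows -/
def shiftIso (R' R : NP K) (c : ℕ) {lo hi : ℕ} (h : ∀ u v, lo ≤ u → u < hi → lo ≤ v → v < hi →
    (R'.r u v ↔ R.r (u + c) (v + c))) : Win R' lo hi ≃o Win R (lo + c) (hi + c) where
  toFun x := ⟨x.val + c, by
    have := win_lo x; have := win_hi x
    rw [mem_Ico]; omega⟩
  invFun x := ⟨x.val - c, by
    have := win_lo x; have := win_hi x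
    rw [mem_Ico]; omega⟩
  left_inv x := Win.eq (by simp only; omega)
  right_inv x := Win.eq (by have := win_lo x; simp only; omega)
  map_rel_iff' := by
    intro x y
    have h1 := win_lo x; have h2 := win_hi x
    have h3 := win_lo y; have h4 := win_hi y
    show (x.val + c = y.val + c ∨ R.r (x.val + c) (y.val + c)) ↔ (x.val = y.val ∨ R'.r x.val y.val)
    rw [h x.val y.val h1 h2 h3 h4]
    constructor
    · rintro (h | h)
      · exact Or.inl (by omega)
      · exact Or.inr h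
    · rintro (h | h)
      · exact Or.inl (by omega)
      · exact Or.inr h

/-- the `ρ`-neighbourhood of `t` in `(R', n')` is the `ρ`-neighbourhood of `t + c` in `(R, n)` -/
structure EmbAt (ρ : ℕ) (R' : NP K) (n' : ℕ) (R : NP K) (n t c : ℕ) : Prop where
  left : c = 0 ∨ ρ ≤ t
  right : min ρ (n' - t) = min ρ (n - (t + c))
  eqv : ∀ u v, t ≤ u + ρ → u < t + ρ → u < n' → t ≤ v + ρ → v < t + ρ → v < n' →
    (R'.r u v ↔ R.r (u + c) (v + c))

/-- every neighbourhood in `(R', n')` occurs in `(R, n)` -/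
def Emb (ρ : ℕ) (R' : NP K) (n' : ℕ) (R : NP K) (n : ℕ) : Prop :=
  ∀ t < n', ∃ c, EmbAt ρ R' n' R n t c

lemma EmbAt.lt {ρ : ℕ} {R' R : NP K} {n' n t c : ℕ} (h : EmbAt ρ R' n' R n t c) (ht : t < n')
    {u : ℕ} (hu : u < n') (hρ : 1 ≤ ρ) (hu2 : u < t + ρ) : u + c < n := by
  have := h.right
  omega

lemma Emb.refl (ρ : ℕ) (R : NP K) (n : ℕ) : Emb ρ R n R n :=
  fun t _ => ⟨0, Or.inl rfl, by simp, fun u v _ _ _ _ _ _ => by simp⟩

lemma Emb.trans {ρ : ℕ} (hρ : 1 ≤ ρ) {R'' R' R : NP K} {n'' n' n : ℕ} (h1 : Emb ρ R'' n'' R' n')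
    (h2 : Emb ρ R' n' R n) : Emb ρ R'' n'' R n := by
  intro t ht
  obtain ⟨c, h3⟩ := h1 t ht
  have h4 : t + c < n' := h3.lt ht ht hρ (by omega)
  obtain ⟨d, h5⟩ := h2 (t + c) h4
  refine ⟨c + d, ?_, ?_, ?_⟩
  · rcases h3.left with h | h
    · rcases h5.left with h' | h'
      · left; omega
      · right; omega
    · right; exact h
  · rw [h3.right, h5.right, Nat.add_assoc]
  · intro u v a1 a2 a3 a4 a5 a6
    rw [h3.eqv u v a1 a2 a3 a4 a5 a6]
    have b1 := h3.lt ht a3 hρ a2
    have b2 := h3.lt ht a6 hρ a5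
    rw [h5.eqv (u + c) (v + c) (by omega) (by omega) b1 (by omega) (by omega) b2, Nat.add_assoc,
      Nat.add_assoc]

/-- probabilities at corresponding places -/
theorem emb_prob {ρ j : ℕ} (hρ : 2 * K * j + 2 * K ≤ ρ) {R' R : NP K} {n' n t c : ℕ}
    (h : EmbAt ρ R' n' R n t c) (ht : t < n') (x y : Win R' 0 n') (x' y' : Win R 0 n)
    (hx' : x'.val = x.val + c) (hy' : y'.val = y.val + c)
    (hx1 : x.val < t + K) (hx2 : t < x.val + K) (hy1 : y.val < t + K) (hy2 : t < y.val + K) :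
    |prob (Win R' 0 n') x y - prob (Win R 0 n) x' y'| ≤ 4 * (1 - th K) ^ j := by
  have hK := R.pos
  have hxn := win_hi x
  have hyn := win_hi y
  have hr := h.right
  have hl := h.left
  set lo := t - ρ with hlo
  set hi := min n' (t + ρ) with hhi
  let x1 : Win R' lo hi := ⟨x.val, by rw [mem_Ico]; omega⟩
  let y1 : Win R' lo hi := ⟨y.val, by rw [mem_Ico]; omega⟩
  have hx3 := win_hi x'
  have hy3 := win_hi y'
  let x2 : Win R (lo + c) (hi + c) := ⟨x.val + c, by rw [mem_Ico]; omega⟩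
  let y2 : Win R (lo + c) (hi + c) := ⟨y.val + c, by rw [mem_Ico]; omega⟩
  have h1 : |prob (Win R' 0 n') x y - prob (Win R' lo hi) x1 y1| ≤ 2 * (1 - th K) ^ j := by
    apply two_trunc R' x y x1 y1 rfl rfl
    · by_cases h0 : lo = 0
      · exact Or.inl h0
      · right; omega
    · by_cases h0 : hi = n'
      · exact Or.inl h0
      · right; omega
  have h2 : |prob (Win R 0 n) x' y' - prob (Win R (lo + c) (hi + c)) x2 y2| ≤
      2 * (1 - th K) ^ j := by
    apply two_trunc R x' y' x2 y2 hx' hy'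
    · rcases hl with h0 | h0
      · by_cases h3 : lo = 0
        · left; omega
        · right; omega
      · right; omega
    · by_cases h0 : ρ ≤ n' - t
      · right; omega
      · left; omega
  have h3 : prob (Win R' lo hi) x1 y1 = prob (Win R (lo + c) (hi + c)) x2 y2 :=
    prob_iso (shiftIso R' R c (fun u v a1 a2 a3 a4 => h.eqv u v (by omega) (by omega) (by omega)
      (by omega) (by omega) (by omega))) x1 y1
  rw [h3] at h1
  rw [abs_le] at h1 h2 ⊢
  constructor <;> linarith [h1.1, h1.2, h2.1, h2.2]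

lemma win_cmp {R : NP K} {a b : ℕ} (x y : Win R a b) (h : x.val + K ≤ y.val) : x ≤ y :=
  Or.inr (R.loc h)

/-- a locally embedded poset has almost no larger balance constant -/
theorem emb_balance {ρ j : ℕ} (hρ : 2 * K * j + 2 * K ≤ ρ) {R' R : NP K} {n' n : ℕ} (hn' : 0 < n')
    (h : Emb ρ R' n' R n) :
    balance (Win R' 0 n') ≤ balance (Win R 0 n) + 4 * (1 - th K) ^ j := by
  have hK := R.pos
  have hθ : 0 ≤ 1 - th K := by have := th_le R; linarith
  have hp : 0 ≤ (1 - th K) ^ j := by positivity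
  have hne : Nonempty (Win R' 0 n') := ⟨⟨0, by rw [mem_Ico]; omega⟩⟩
  have hne2 : Nonempty (Win R 0 n) := by
    obtain ⟨c, hc⟩ := h 0 hn'
    have := hc.lt hn' hn' (by omega) (by omega)
    exact ⟨⟨0 + c, by rw [mem_Ico]; omega⟩⟩
  have hb : 0 ≤ balance (Win R 0 n) := balance_nonneg
  have : Nonempty (Win R' 0 n' × Win R' 0 n') := inferInstance
  rw [show balance (Win R' 0 n') = ⨆ p : Win R' 0 n' × Win R' 0 n',
    min (prob (Win R' 0 n') p.1 p.2) (prob (Win R' 0 n') p.2 p.1) from rfl]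
  apply ciSup_le
  rintro ⟨x, y⟩
  simp only
  by_cases h1 : x ≤ y
  · rw [prob_eq_zero_of_le h1]
    exact (min_le_right _ _).trans (by linarith)
  by_cases h2 : y ≤ x
  · rw [prob_eq_zero_of_le h2]
    exact (min_le_left _ _).trans (by linarith)
  have h3 : x.val < y.val + K := by
    by_contra h4
    exact h2 (win_cmp y x (by omega))
  have h4 : y.val < x.val + K := by
    by_contra h4
    exact h1 (win_cmp x y (by omega))
  obtain ⟨c, hc⟩ := h x.val (win_hi x)
  have hx := hc.lt (win_hi x) (win_hi x) (by omega) (by omega)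
  have hy := hc.lt (win_hi x) (win_hi y) (by omega) (by omega)
  let x' : Win R 0 n := ⟨x.val + c, by rw [mem_Ico]; omega⟩
  let y' : Win R 0 n := ⟨y.val + c, by rw [mem_Ico]; omega⟩
  have g1 := emb_prob hρ hc (win_hi x) x y x' y' rfl rfl (by omega) (by omega) h4 h3
  have g2 := emb_prob hρ hc (win_hi x) y x y' x' rfl rfl h4 h3 (by omega) (by omega)
  have g3 := le_balance x' y'
  rw [abs_le] at g1 g2
  have g4 : min (prob (Win R' 0 n') x y) (prob (Win R' 0 n') y x) ≤
      min (prob (Win R 0 n) x' y') (prob (Win R 0 n) y' x') + 4 * (1 - th K) ^ j := by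
    rw [← min_add_add_right]
    exact min_le_min (by linarith [g1.2]) (by linarith [g2.2])
  linarith

end Pool.Agent.Q236.TP
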