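import Mathlib
import Pool.Agent.Q236.TP.Loc

/-!
# Cutting out a piece between two equal windows
-/

set_option autoImplicit false

open Finset

namespace Pool.Agent.Q236.TP

open Pool.Agent.H13R3.WB Pool.Agent.H931R3.Bal

variable {K : ℕ}

open Classical in
/-- the relations in the window `[i, i + D)` -/
noncomputable def code (R : NP K) (D i : ℕ) : Fin D → Fin K → Bool :=
  fun a d => decide (R.r (i + a) (i + a + d + 1))

lemma code_eq {R : NP K} {D i j : ℕ} (h : code R D i = code R D j) {u v : ℕ} (hu : u < D) :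
    R.r (i + u) (i + v) ↔ R.r (j + u) (j + v) := by
  classical
  rcases Nat.lt_or_ge u v with huv | huv
  · by_cases h2 : v - u - 1 < K
    · have h3 := congrFun (congrFun h ⟨u, hu⟩) ⟨v - u - 1, h2⟩
      unfold code at h3
      simp only at h3
      rw [decide_eq_decide] at h3
      have e1 : i + u + (v - u - 1) + 1 = i + v := by omega
      have e2 : j + u + (v - u - 1) + 1 = j + v := by omega
      rwa [e1, e2] at h3
    · exact ⟨fun _ => R.loc (by omega), fun _ => R.loc (by omega)⟩
  · constructor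
    · intro h3
      have := R.lt h3
      omega
    · intro h3
      have := R.lt h3
      omega

lemma exists_code (R : NP K) (D p : ℕ) : ∃ i j, p ≤ i ∧ i < j ∧ j ≤ p + 2 ^ (K * D) ∧
    code R D i = code R D j := by
  have hc : (univ : Finset (Fin D → Fin K → Bool)).card < (Finset.Icc p (p + 2 ^ (K * D))).card := by
    rw [Nat.card_Icc, card_univ, Fintype.card_fun, Fintype.card_fun, Fintype.card_bool,
      Fintype.card_fin, Fintype.card_fin, ← pow_mul]
    omega
  obtain ⟨i, hi, j, hj, hij, h⟩ := exists_ne_map_eq_of_card_lt_of_maps_to hc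
    (f := code R D) (fun _ _ => mem_univ _)
  rw [mem_Icc] at hi hj
  rcases lt_or_gt_of_ne hij with h1 | h1
  · exact ⟨i, j, hi.1, h1, hj.2, h⟩
  · exact ⟨j, i, hj.1, h1, hi.2, h.symm⟩

/-- cut out the `s` elements from `i + D` on -/
def NP.cut (R : NP K) (i s D : ℕ) (h : ∀ u v, i ≤ u → u < i + D → i ≤ v → v < i + D →
    (R.r u v ↔ R.r (u + s) (v + s))) : NP K where
  r u v := u < v ∧ (v < i + D → R.r u v) ∧ (i + D ≤ v → i ≤ u → R.r (u + s) (v + s))
  lt h := h.1
  tr := by
    rintro u v z ⟨h1, h2, h3⟩ ⟨h4, h5, h6⟩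
    refine ⟨h1.trans h4, fun hz => R.tr (h2 (by omega)) (h5 hz), fun hz hu => ?_⟩
    refine R.tr ?_ (h6 hz (by omega))
    by_cases hv : v < i + D
    · exact (h u v hu (by omega) (by omega) hv).1 (h2 hv)
    · exact h3 (by omega) hu
  loc := by
    intro u v huv
    have hK := R.pos
    exact ⟨by omega, fun _ => R.loc huv, fun _ _ => R.loc (by omega)⟩

lemma cut_left {R : NP K} {i s D : ℕ} (h : ∀ u v, i ≤ u → u < i + D → i ≤ v → v < i + D →
    (R.r u v ↔ R.r (u + s) (v + s))) {u v : ℕ} (hv : v < i + D) :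
    (R.cut i s D h).r u v ↔ R.r u v := by
  constructor
  · intro h1; exact h1.2.1 hv
  · intro h1
    exact ⟨R.lt h1, fun _ => h1, fun h2 => absurd h2 (by omega)⟩

lemma cut_right {R : NP K} {i s D : ℕ} (h : ∀ u v, i ≤ u → u < i + D → i ≤ v → v < i + D →
    (R.r u v ↔ R.r (u + s) (v + s))) {u v : ℕ} (hu : i ≤ u) :
    (R.cut i s D h).r u v ↔ R.r (u + s) (v + s) := by
  constructor
  · intro h1
    have h0 := h1.1
    by_cases hv : v < i + D
    · exact (h u v hu (by omega) (by omega) hv).1 (h1.2.1 hv)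
    · exact h1.2.2 (by omega) hu
  · intro h1
    have h0 := R.lt h1
    exact ⟨by omega, fun hv => (h u v hu (by omega) (by omega) hv).2 h1, fun _ _ => h1⟩

lemma cut_emb {ρ : ℕ} {R : NP K} {i s n : ℕ} (hn : i + s + 2 * ρ ≤ n)
    (h : ∀ u v, i ≤ u → u < i + 2 * ρ → i ≤ v → v < i + 2 * ρ →
      (R.r u v ↔ R.r (u + s) (v + s))) : Emb ρ (R.cut i s (2 * ρ) h) (n - s) R n := by
  intro t ht
  by_cases h1 : t + ρ ≤ i + 2 * ρ
  · refine ⟨0, Or.inl rfl, by omega, fun u v _ _ _ _ a5 _ => ?_⟩
    rw [cut_left h (by omega), Nat.add_zero, Nat.add_zero]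
  · refine ⟨s, Or.inr (by omega), by omega, fun u v a1 _ _ _ _ _ => ?_⟩
    rw [cut_right h (by omega)]

/-- the main reduction: a locally embedded poset of bounded size which contains a marked window -/
theorem pump {ρ : ℕ} (hρ : 1 ≤ ρ) : ∀ (n : ℕ) (R : NP K) (a m : ℕ), a + m ≤ n →
    ∃ (R' : NP K) (n' a' : ℕ), n' ≤ m + 2 * (2 ^ (K * (2 * ρ)) + 2 * ρ) ∧ Emb ρ R' n' R n ∧
      a' + m ≤ n' ∧ ∀ u v, u < m → v < m → (R'.r (a' + u) (a' + v) ↔ R.r (a + u) (a + v)) := by
  intro n
  induction n using Nat.strong_induction_on with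
  | _ n ih =>
    intro R a m ham
    by_cases hn : n ≤ m + 2 * (2 ^ (K * (2 * ρ)) + 2 * ρ)
    · exact ⟨R, n, a, hn, Emb.refl ρ R n, ham, fun u v _ _ => Iff.rfl⟩
    by_cases hL : 2 ^ (K * (2 * ρ)) + 2 * ρ < a
    · obtain ⟨i, j, h1, h2, h3, h4⟩ := exists_code R (2 * ρ) 0
      have h5 : ∀ u v, i ≤ u → u < i + 2 * ρ → i ≤ v → v < i + 2 * ρ →
          (R.r u v ↔ R.r (u + (j - i)) (v + (j - i))) := by
        intro u v a1 a2 a3 a4
        have h6 := code_eq h4 (u := u - i) (v := v - i) (by omega)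
        rwa [show i + (u - i) = u by omega, show i + (v - i) = v by omega,
          show j + (u - i) = u + (j - i) by omega, show j + (v - i) = v + (j - i) by omega] at h6
      have e1 := cut_emb (ρ := ρ) (n := n) (by omega) h5
      obtain ⟨R', n', a', g1, g2, g3, g4⟩ := ih (n - (j - i)) (by omega) (R.cut i (j - i) (2 * ρ) h5)
        (a - (j - i)) m (by omega)
      refine ⟨R', n', a', g1, g2.trans hρ e1, g3, fun u v hu hv => ?_⟩
      rw [g4 u v hu hv, cut_right h5 (by omega), show a - (j - i) + u + (j - i) = a + u by omega,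
        show a - (j - i) + v + (j - i) = a + v by omega]
    · obtain ⟨i, j, h1, h2, h3, h4⟩ := exists_code R (2 * ρ) (a + m)
      have h5 : ∀ u v, i ≤ u → u < i + 2 * ρ → i ≤ v → v < i + 2 * ρ →
          (R.r u v ↔ R.r (u + (j - i)) (v + (j - i))) := by
        intro u v a1 a2 a3 a4
        have h6 := code_eq h4 (u := u - i) (v := v - i) (by omega)
        rwa [show i + (u - i) = u by omega, show i + (v - i) = v by omega,
          show j + (u - i) = u + (j - i) by omega, show j + (v - i) = v + (j - i) by omega] at h6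
      have e1 := cut_emb (ρ := ρ) (n := n) (by omega) h5
      obtain ⟨R', n', a', g1, g2, g3, g4⟩ := ih (n - (j - i)) (by omega) (R.cut i (j - i) (2 * ρ) h5)
        a m (by omega)
      refine ⟨R', n', a', g1, g2.trans hρ e1, g3, fun u v hu hv => ?_⟩
      rw [g4 u v hu hv, cut_left h5 (by omega)]

end Pool.Agent.Q236.TP
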