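import Mathlib
import Pool.Agent.Q236.TP.Size
import Pool.Agent.Q288.Bal.Thin

/-!
# The minimal balance constant of width `w` is approximated by posets of bounded size
-/

set_option autoImplicit false

open Finset

namespace Pool.Agent.Q236.TP

open Pool.Agent.H13R3.WB Pool.Agent.H931R3.Bal Pool.Agent.TH447.KL Pool.Agent.Q288.Bal

/-- the least balance constant of a poset of width `w` with at most `n` elements -/
noncomputable def dFin (n w : ℕ) : ℝ :=
  sInf {d : ℝ | ∃ (P : Type) (_ : Fintype P) (_ : PartialOrder P), HasWidth P w ∧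
    Fintype.card P ≤ n ∧ balance P = d}

/-- the exponent `exp (exp (B (log 48 w)³ (24 w)⁴))` -/
noncomputable def cW (B : ℝ) (w : ℕ) : ℝ :=
  Real.exp (Real.exp (B * Real.log (48 * w) ^ 3 * (24 * w) ^ 4))

lemma cW_pos (B : ℝ) (w : ℕ) : 0 < cW B w := Real.exp_pos _

lemma balance_le_half {P : Type} [Fintype P] [PartialOrder P] [Nonempty P] :
    balance P ≤ 1 / 2 := by
  have : Nonempty (P × P) := inferInstance
  unfold balance
  apply ciSup_le
  rintro ⟨x, y⟩
  simp only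
  by_cases h : x = y
  · rw [h, prob_self, min_self]; norm_num
  · have := prob_add h
    rcases min_le_iff.2 (Or.inl (le_refl (prob P x y))) with _
    by_cases h1 : prob P x y ≤ 1 / 2
    · exact (min_le_left _ _).trans h1
    · exact (min_le_right _ _).trans (by linarith)

lemma bdd_fin (n w : ℕ) (hw : 1 ≤ w) :
    BddBelow {d : ℝ | ∃ (P : Type) (_ : Fintype P) (_ : PartialOrder P), HasWidth P w ∧
      Fintype.card P ≤ n ∧ balance P = d} := by
  refine ⟨0, ?_⟩
  rintro d ⟨P, _, _, h1, _, rfl⟩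
  have := nonempty_of_width hw h1
  exact balance_nonneg

lemma exists_antichain_poset (w : ℕ) (hw : 1 ≤ w) : ∃ (P : Type) (_ : Fintype P)
    (_ : PartialOrder P), HasWidth P w ∧ Fintype.card P = w := by
  classical
  obtain ⟨P, i1, i2, h1, h2, h3⟩ := exists_anti (w - 1)
  refine ⟨P, i1, i2, ⟨⟨univ, ?_, ?_⟩, ?_⟩, by omega⟩
  · intro x _ y _ hxy h
    exact hxy (h3 x y h)
  · rw [card_univ, h2]; omega
  · intro s _
    have := card_le_univ s
    omega

lemma dAll_nonneg (w : ℕ) (hw : 1 ≤ w) : 0 ≤ dAll w := by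
  unfold dAll
  apply Real.sInf_nonneg
  rintro d ⟨P, _, _, h1, rfl⟩
  have := nonempty_of_width hw h1
  exact balance_nonneg

lemma dAll_le_dFin {n w : ℕ} (hw : 1 ≤ w) (hn : w ≤ n) : dAll w ≤ dFin n w := by
  obtain ⟨P, i1, i2, h1, h2⟩ := exists_antichain_poset w hw
  unfold dAll dFin
  refine csInf_le_csInf (bdd_all w hw) ⟨balance P, P, i1, i2, h1, by omega, rfl⟩ ?_
  rintro d ⟨P, j1, j2, g1, _, g2⟩
  exact ⟨P, j1, j2, g1, g2⟩

lemma cEx_le {B : ℝ} (hB : 1 ≤ B) {w : ℕ} (hw : 1 ≤ w) :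
    4 * (cEx ⌈thinB B w⌉₊ : ℝ) ≤ cW (3 * B) w := by
  have hw1 : (1 : ℝ) ≤ w := by exact_mod_cast hw
  set X := B * Real.log (48 * w) ^ 3 * (24 * w) ^ 4 with hX
  set k := ⌈thinB B w⌉₊ with hk
  have hkX : thinB B w = Real.exp X := rfl
  have hlog : 1 ≤ Real.log (48 * w) := by
    rw [Real.le_log_iff_exp_le (by positivity)]
    have := Real.exp_one_lt_d9
    linarith
  have h3 : 1 ≤ Real.log (48 * w) ^ 3 := one_le_pow₀ hlog
  have h4 : (24 * w : ℝ) ≤ (24 * w) ^ 4 := le_self_pow₀ (by linarith) (by norm_num)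
  have hX24 : 24 ≤ X := by
    have h6 : 1 ≤ B * Real.log (48 * w) ^ 3 := one_le_mul_of_one_le_of_one_le hB h3
    have h7 : (0 : ℝ) ≤ (24 * w) ^ 4 := by positivity
    have h8 : (24 * w : ℝ) ^ 4 ≤ B * Real.log (48 * w) ^ 3 * (24 * w) ^ 4 := by nlinarith
    rw [hX]; linarith
  set e := Real.exp X with he
  have he1 : X + 1 ≤ e := Real.add_one_le_exp X
  have hk1 : (k : ℝ) < e + 1 := by
    rw [hk, hkX]; exact Nat.ceil_lt_add_one (by positivity)
  have hk0 : (e : ℝ) ≤ k := by rw [hk, hkX]; exact Nat.le_ceil _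
  have hkpos : (0 : ℝ) < k := by linarith
  have hcast : (4 * (cEx k : ℝ)) = 96 * (2 * (k : ℝ)) ^ (4 * k + 2) := by
    unfold cEx; push_cast; ring
  rw [hcast]
  have hY : Real.exp (3 * B * Real.log (48 * w) ^ 3 * (24 * w) ^ 4) = e ^ 3 := by
    rw [he, ← Real.exp_nat_mul]; congr 1; rw [hX]; push_cast; ring
  unfold cW
  rw [hY]
  have h96 : (96 : ℝ) ≤ Real.exp 5 := by
    have h1 : (2.7 : ℝ) ≤ Real.exp 1 := by have := Real.exp_one_gt_d9; linarith
    have h2 : Real.exp 5 = Real.exp 1 ^ 5 := by rw [← Real.exp_nat_mul]; norm_num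
    rw [h2]
    calc (96 : ℝ) ≤ 2.7 ^ 5 := by norm_num
      _ ≤ _ := pow_le_pow_left₀ (by norm_num) h1 5
  have hlog2 : Real.log (2 * k) ≤ e := by
    have h1 : (2 * (k : ℝ)) ≤ 4 * e := by linarith
    have h2 : Real.log (2 * k) ≤ Real.log (4 * e) := Real.log_le_log (by positivity) h1
    have h5 : Real.log (4 * e) = Real.log 4 + X := by
      rw [Real.log_mul (by norm_num) (by positivity), he, Real.log_exp]
    have h6 : Real.log 4 ≤ 2 := by
      rw [show (4 : ℝ) = 2 ^ 2 by norm_num, Real.log_pow]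
      have := Real.log_two_lt_d9
      push_cast; linarith
    -- `X + 2 ≤ exp X`
    have h7 := Real.quadratic_le_exp_of_nonneg (show 0 ≤ X by linarith)
    nlinarith
  have hpow : (2 * (k : ℝ)) ^ (4 * k + 2) = Real.exp ((4 * k + 2 : ℕ) * Real.log (2 * k)) := by
    rw [Real.exp_nat_mul, Real.exp_log (by positivity)]
  rw [hpow]
  calc 96 * Real.exp ((4 * k + 2 : ℕ) * Real.log (2 * k))
      ≤ Real.exp 5 * Real.exp ((4 * k + 2 : ℕ) * Real.log (2 * k)) :=
        mul_le_mul_of_nonneg_right h96 (by positivity)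
    _ = Real.exp (5 + (4 * k + 2 : ℕ) * Real.log (2 * k)) := (Real.exp_add _ _).symm
    _ ≤ Real.exp (e ^ 3) := by
        apply Real.exp_le_exp.2
        push_cast
        have h8 : (4 * (k : ℝ) + 2) ≤ 10 * e := by linarith
        have hl0 : 0 ≤ Real.log (2 * k) := Real.log_nonneg (by linarith)
        have h9 : (4 * (k : ℝ) + 2) * Real.log (2 * k) ≤ 10 * e * e :=
          mul_le_mul h8 hlog2 hl0 (by positivity)
        have he25 : 25 ≤ e := by linarith
        have h10 : 15 * (e * e) ≤ e ^ 3 := by nlinarith [mul_pos (show 0 < e by linarith) (show 0 < e by linarith)]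
        nlinarith

/-- small posets of width `w` -/
theorem width_small {B : ℝ} (hB : 1 ≤ B) (h : ∀ w : ℕ, 1 ≤ w →
    ∀ (P : Type) [Fintype P] [PartialOrder P], ¬ ThinLt P (thinB B w) →
      1 / 2 - 1 / (24 * (w : ℝ)) ≤ balance P) {w : ℕ} (hw : 1 ≤ w) {ε : ℝ} (hε : 0 < ε)
    (hε1 : ε ≤ 1 / 2) :
    ∃ (Q : Type) (_ : Fintype Q) (_ : PartialOrder Q), HasWidth Q w ∧
      (Fintype.card Q : ℝ) ≤ (1 / ε) ^ cW (3 * B) w ∧ balance Q < dAll w + ε := by
  have hw1 : (1 : ℝ) ≤ w := by exact_mod_cast hw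
  obtain ⟨P0, i1, i2, h1, h2, h3⟩ := exists_few w hw
  have hlt : sInf {d : ℝ | ∃ (P : Type) (_ : Fintype P) (_ : PartialOrder P), HasWidth P w ∧
      balance P = d} < dAll w + min (ε / 2) (1 / (24 * w)) := by
    have : 0 < min (ε / 2) (1 / (24 * (w : ℝ))) := lt_min (by positivity) (by positivity)
    unfold dAll
    linarith
  have hne : {d : ℝ | ∃ (P : Type) (_ : Fintype P) (_ : PartialOrder P), HasWidth P w ∧
      balance P = d}.Nonempty := ⟨balance P0, P0, i1, i2, h1, rfl⟩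
  obtain ⟨d, ⟨P, j1, j2, hP, hd⟩, hd2⟩ := exists_lt_of_csInf_lt hne hlt
  rw [← hd] at hd2
  have hT : ThinLt P (thinB B w) := by
    by_contra hT
    have := nonthin_far h hw P hT
    have := min_le_right (ε / 2) (1 / (24 * (w : ℝ)))
    linarith
  have hk : Thn P ⌈thinB B w⌉₊ := fun x => by
    have h4 := (hT x).trans_le (Nat.le_ceil _)
    exact_mod_cast h4
  obtain ⟨s, hs, hsw⟩ := hP.1
  obtain ⟨Q, k1, k2, q1, q2, q3, q4⟩ := small_eps hk hw s hs hsw hP.2 (ε := ε / 2) (by linarith)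
    (by linarith)
  refine ⟨Q, k1, k2, ⟨q2, q3⟩, q1.trans ?_, ?_⟩
  · have h5 : (4 / (ε / 2)) ≤ (1 / ε) ^ 4 := by
      rw [show 4 / (ε / 2) = 8 * (1 / ε) by field_simp; ring]
      have h6 : 2 ≤ 1 / ε := by rw [le_div_iff₀ hε]; linarith
      have h7 : 8 ≤ (1 / ε) ^ 3 := by
        calc (8 : ℝ) = 2 ^ 3 := by norm_num
          _ ≤ _ := pow_le_pow_left₀ (by norm_num) h6 3
      calc 8 * (1 / ε) ≤ (1 / ε) ^ 3 * (1 / ε) := mul_le_mul_of_nonneg_right h7 (by positivity)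
        _ = _ := by ring
    calc (4 / (ε / 2)) ^ cEx ⌈thinB B w⌉₊ ≤ ((1 / ε) ^ 4) ^ cEx ⌈thinB B w⌉₊ :=
          pow_le_pow_left₀ (by positivity) h5 _
      _ = (1 / ε) ^ ((4 * (cEx ⌈thinB B w⌉₊ : ℝ))) := by
          rw [← pow_mul, ← Real.rpow_natCast]; push_cast; rfl
      _ ≤ _ := by
          apply Real.rpow_le_rpow_of_exponent_le _ (cEx_le hB hw)
          rw [le_div_iff₀ hε]; linarith
  · have := min_le_left (ε / 2) (1 / (24 * (w : ℝ)))
    linarith

/-- the approximation by posets with at most `n` elements -/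
theorem dFin_le {B : ℝ} (hB : 1 ≤ B) (h : ∀ w : ℕ, 1 ≤ w →
    ∀ (P : Type) [Fintype P] [PartialOrder P], ¬ ThinLt P (thinB B w) →
      1 / 2 - 1 / (24 * (w : ℝ)) ≤ balance P) {w n : ℕ} (hw : 1 ≤ w) (hn : w ≤ n) :
    dFin n w ≤ dAll w + (n : ℝ) ^ (-(1 / cW (3 * B) w)) := by
  have hn0 : (0 : ℝ) < n := by exact_mod_cast (by omega : 0 < n)
  have hc := cW_pos (3 * B) w
  set ε := (n : ℝ) ^ (-(1 / cW (3 * B) w)) with hε
  have hε0 : 0 < ε := Real.rpow_pos_of_pos hn0 _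
  by_cases h1 : ε ≤ 1 / 2
  · obtain ⟨Q, k1, k2, q1, q2, q3⟩ := width_small hB h hw hε0 h1
    have h2 : (1 / ε) ^ cW (3 * B) w = n := by
      rw [hε, Real.rpow_neg hn0.le, one_div, inv_inv, ← Real.rpow_mul hn0.le,
        one_div_mul_cancel hc.ne', Real.rpow_one]
    rw [h2] at q2
    unfold dFin
    exact (csInf_le (bdd_fin n w hw) ⟨Q, k1, k2, q1, by exact_mod_cast q2, rfl⟩).trans q3.le
  · obtain ⟨P, i1, i2, h3, h4⟩ := exists_antichain_poset w hw
    have hne := nonempty_of_width hw h3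
    have h5 : balance P ≤ 1 / 2 := balance_le_half
    have h6 := dAll_nonneg w hw
    unfold dFin
    exact (csInf_le (bdd_fin n w hw) ⟨P, i1, i2, h3, by omega, rfl⟩).trans (by linarith)

end Pool.Agent.Q236.TP
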